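import Mathlib

/-!
The number `360` is not a power of ten, and every number `360360...360` followed by the digit `1`
is composite.
-/

namespace Pool.Agent.Results.MP_842c30_nt.RepeatedConcat360

open Finset

lemma geom_double (m : ℕ) :
    ∑ i ∈ range (2 * m), (1000 : ℕ) ^ i
      = (∑ i ∈ range m, (1000 : ℕ) ^ i) * (999 * (∑ i ∈ range m, (1000 : ℕ) ^ i) + 2) := by
  have h1 : ∀ k : ℕ, 999 * (∑ i ∈ range k, (1000 : ℕ) ^ i) + 1 = 1000 ^ k := by
    intro k
    induction k with
    | zero => simp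
    | succ k ih => rw [sum_range_succ, pow_succ]; omega
  have h2 := h1 m
  have h3 := h1 (2 * m)
  set s := ∑ i ∈ range m, (1000 : ℕ) ^ i
  set t := ∑ i ∈ range (2 * m), (1000 : ℕ) ^ i
  have h4 : (1000 : ℕ) ^ (2 * m) = (999 * s + 1) ^ 2 := by
    rw [h2, ← pow_mul, mul_comm]
  have h5 : 999 * t + 1 = (999 * s + 1) ^ 2 := by rw [h3, h4]
  nlinarith [h5]

lemma odd_dvd (m : ℕ) : 13 ∣ 3600 * (∑ i ∈ range (2 * m + 1), (1000 : ℕ) ^ i) + 1 := by
  induction m with
  | zero => simp
  | succ m ih =>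
    have : 2 * (m + 1) + 1 = (2 * m + 1) + 1 + 1 := by ring
    rw [this, sum_range_succ, sum_range_succ]
    have h : 13 ∣ (1000 : ℕ) ^ (2 * m + 1) + 1000 ^ (2 * m + 1 + 1) := by
      refine ⟨77 * 1000 ^ (2 * m + 1), ?_⟩
      rw [pow_succ (1000 : ℕ) (2 * m + 1)]
      ring
    obtain ⟨a, ha⟩ := ih
    obtain ⟨b, hb⟩ := h
    refine ⟨a + 3600 * b, ?_⟩
    nlinarith [ha, hb]

/-- There is a positive integer `n`, not a power of ten, such that for every `r ≥ 1` the number
obtained by writing the decimal expansion of `n` exactly `r` times in a row and then appending the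
digit `1` is composite. -/
theorem result :
    ∃ n : ℕ, 0 < n ∧ (∀ m : ℕ, n ≠ 10 ^ m) ∧
      ∀ r : ℕ, 1 ≤ r →
        1 < 10 * (n * ∑ i ∈ Finset.range r, 10 ^ ((Nat.digits 10 n).length * i)) + 1 ∧
        ¬ Nat.Prime
          (10 * (n * ∑ i ∈ Finset.range r, 10 ^ ((Nat.digits 10 n).length * i)) + 1) := by
  refine ⟨360, by norm_num, ?_, ?_⟩
  · intro m hm
    rcases m with _ | _ | _ | m
    · norm_num at hm
    · norm_num at hm
    · norm_num at hm
    · have h3 : 3 ∣ 10 ^ (m + 3) := by
        have : (3 : ℕ) ∣ 360 := by norm_num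
        rw [hm] at this
        exact this
      have := Nat.prime_three.dvd_of_dvd_pow h3
      norm_num at this
  · intro r hr
    have hlen : (Nat.digits 10 360).length = 3 := by norm_num
    have hsum : ∑ i ∈ Finset.range r, 10 ^ ((Nat.digits 10 360).length * i)
        = ∑ i ∈ Finset.range r, (1000 : ℕ) ^ i := by
      apply Finset.sum_congr rfl
      intro i _
      rw [hlen, pow_mul]
      norm_num
    rw [hsum]
    have hpos : 1 ≤ ∑ i ∈ Finset.range r, (1000 : ℕ) ^ i := by
      calc (1 : ℕ) = ∑ i ∈ Finset.range 1, (1000 : ℕ) ^ i := by simp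
        _ ≤ ∑ i ∈ Finset.range r, (1000 : ℕ) ^ i :=
          Finset.sum_le_sum_of_subset (Finset.range_mono hr)
    refine ⟨by omega, ?_⟩
    rcases Nat.even_or_odd' r with ⟨m, hm | hm⟩
    · -- even case: algebraic factorisation
      subst hm
      have hm1 : 1 ≤ m := by omega
      have hpos' : 1 ≤ ∑ i ∈ Finset.range m, (1000 : ℕ) ^ i := by
        calc (1 : ℕ) = ∑ i ∈ Finset.range 1, (1000 : ℕ) ^ i := by simp
          _ ≤ ∑ i ∈ Finset.range m, (1000 : ℕ) ^ i :=
            Finset.sum_le_sum_of_subset (Finset.range_mono hm1)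
      rw [geom_double]
      set s := ∑ i ∈ Finset.range m, (1000 : ℕ) ^ i
      have hfac : 10 * (360 * (s * (999 * s + 2))) + 1 = (6660 * s + 1) * (540 * s + 1) := by ring
      rw [hfac]
      exact Nat.not_prime_mul (by omega) (by omega)
    · -- odd case: divisible by 13
      subst hm
      have h13 := odd_dvd m
      have heq : 10 * (360 * ∑ i ∈ Finset.range (2 * m + 1), (1000 : ℕ) ^ i) + 1
          = 3600 * (∑ i ∈ Finset.range (2 * m + 1), (1000 : ℕ) ^ i) + 1 := by ring
      rw [heq]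
      intro hp
      have h := (Nat.prime_dvd_prime_iff_eq (by norm_num) hp).mp h13
      omega

end Pool.Agent.Results.MP_842c30_nt.RepeatedConcat360
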